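import Mathlib

open Filter Topology MeasureTheory Set Real
open scoped RealInnerProductSpace

namespace Pool.Agent.H.MP_791656_an

abbrev E := EuclideanSpace ℝ (Fin 2)

lemma int_fderiv {g : E → ℝ} (hg : ContDiff ℝ 1 g) (hc : HasCompactSupport g) (v : E) :
    Integrable (fun x => fderiv ℝ g x v) ∧ ∫ x, fderiv ℝ g x v = 0 := by
  have hi : Integrable (fun x => fderiv ℝ g x v) :=
    ((hg.continuous_fderiv one_ne_zero).clm_apply continuous_const).integrable_of_hasCompactSupport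
      (hc.fderiv_apply ℝ v)
  refine ⟨hi, ?_⟩
  have := integral_mul_fderiv_eq_neg_fderiv_mul_of_integrable (μ := volume) (f := fun _ => (1 : ℝ))
    (g := g) (v := v) (by simp) (by simpa using hi)
    (by simpa using hg.continuous.integrable_of_hasCompactSupport hc) (by simp)
    (fun x _ => hg.differentiable one_ne_zero x)
  simpa using this

lemma cot_id {a b c : ℝ} (h : a + b + c = π) (ha : sin a ≠ 0) (hb : sin b ≠ 0) (hc : sin c ≠ 0) :
    cos a / sin a * (cos b / sin b) + cos a / sin a * (cos c / sin c) +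
      cos b / sin b * (cos c / sin c) = 1 := by
  obtain rfl : c = π - (a + b) := by linarith
  rw [cos_pi_sub]
  rw [sin_pi_sub] at hc ⊢
  field_simp
  rw [sin_add, cos_add]
  ring

lemma dg {u : E → ℝ} {x n : E} {c : ℝ} (hu : DifferentiableAt ℝ u x) (h : sin (⟪n, x⟫ + c) ≠ 0) :
    fderiv ℝ (fun x => u x ^ 2 * (cos (⟪n, x⟫ + c) / sin (⟪n, x⟫ + c))) x n =
      2 * u x * fderiv ℝ u x n * (cos (⟪n, x⟫ + c) / sin (⟪n, x⟫ + c)) -
        u x ^ 2 * ⟪n, n⟫ * (1 + (cos (⟪n, x⟫ + c) / sin (⟪n, x⟫ + c)) ^ 2) := by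
  have e1 : HasFDerivAt (fun x : E => ⟪n, x⟫ + c) (innerSL ℝ n) x :=
    (innerSL ℝ n).hasFDerivAt.add_const _
  have e0 := (hasDerivAt_cos _).fun_div (hasDerivAt_sin _) h
  have e2 := e0.comp_hasFDerivAt x e1
  simp only [Function.comp_def] at e2
  rw [((hu.hasFDerivAt.pow 2).fun_mul e2).fderiv]
  simp only [add_apply, smul_apply, innerSL_apply_apply, smul_eq_mul, Nat.add_one_sub_one, pow_one,
    nsmul_eq_mul, Nat.cast_ofNat]
  field_simp
  ring

lemma pt {n : Fin 3 → E} {κ p q r : ℝ} (h1 : ∀ i, ⟪n i, n i⟫ = κ)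
    (h01 : ⟪n 0, n 1⟫ = -κ / 2) (h02 : ⟪n 0, n 2⟫ = -κ / 2) (h12 : ⟪n 1, n 2⟫ = -κ / 2)
    (hc : p * q + p * r + q * r = 1) (a : ℝ) (L : E →L[ℝ] ℝ) :
    2 * a * L (n 0) * p - a ^ 2 * κ * (1 + p ^ 2) + (2 * a * L (n 1) * q - a ^ 2 * κ * (1 + q ^ 2)) +
      (2 * a * L (n 2) * r - a ^ 2 * κ * (1 + r ^ 2)) + 4 * κ * a ^ 2 ≤ ‖L‖ ^ 2 := by
  obtain ⟨V, hV⟩ : ∃ V, V = a • (p • n 0 + q • n 1 + r • n 2) := ⟨_, rfl⟩
  have e1 : ‖V‖ ^ 2 = a ^ 2 * κ * (p ^ 2 + q ^ 2 + r ^ 2 - 1) := by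
    rw [← real_inner_self_eq_norm_sq, ← hc, hV]
    simp only [inner_add_left, inner_add_right, real_inner_smul_left, real_inner_smul_right,
      h1, h01, h02, h12, real_inner_comm (n 0) (n 1), real_inner_comm (n 0) (n 2),
      real_inner_comm (n 1) (n 2)]
    ring
  have e2 : L V ≤ ‖L‖ * ‖V‖ := (le_abs_self _).trans (L.le_opNorm V)
  have e3 : L V = a * (p * L (n 0) + q * L (n 1) + r * L (n 2)) := by simp [hV]; ring
  nlinarith [sq_nonneg (‖L‖ - ‖V‖)]

/-- Barta's inequality for the equilateral triangle -/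
lemma barta {n : Fin 3 → E} {c : Fin 3 → ℝ} {κ : ℝ} (h1 : ∀ i, ⟪n i, n i⟫ = κ)
    (h01 : ⟪n 0, n 1⟫ = -κ / 2) (h02 : ⟪n 0, n 2⟫ = -κ / 2) (h12 : ⟪n 1, n 2⟫ = -κ / 2)
    (hs : ∀ x, (⟪n 0, x⟫ + c 0) + (⟪n 1, x⟫ + c 1) + (⟪n 2, x⟫ + c 2) = π) {u : E → ℝ}
    (hu : ContDiff ℝ 1 u) (hc : HasCompactSupport u)
    (ht : ∀ x ∈ tsupport u, ∀ i, sin (⟪n i, x⟫ + c i) ≠ 0) :
    4 * κ * ∫ x, u x ^ 2 ≤ ∫ x, ‖fderiv ℝ u x‖ ^ 2 := by
  obtain ⟨g, hg⟩ : ∃ g : Fin 3 → E → ℝ, ∀ i,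
    g i = fun x => u x ^ 2 * (cos (⟪n i, x⟫ + c i) / sin (⟪n i, x⟫ + c i)) := ⟨_, fun _ => rfl⟩
  have hsub : ∀ i, tsupport (g i) ⊆ tsupport u := fun i =>
    closure_mono fun x hx h => hx (by simp [hg, h])
  have ha : ∀ i, ContDiff ℝ 1 fun x : E => ⟪n i, x⟫ + c i := fun i =>
    (contDiff_const.inner ℝ contDiff_id).add contDiff_const
  have hgc : ∀ i, ContDiff ℝ 1 (g i) := fun i => contDiff_iff_contDiffAt.2 fun x => by
    by_cases hx : x ∈ tsupport (g i)
    · rw [hg i]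
      exact (hu.contDiffAt.pow 2).mul
        ((ha i).cos.contDiffAt.div (ha i).sin.contDiffAt (ht x (hsub i hx) i))
    · exact contDiffAt_const.congr_of_eventuallyEq (notMem_tsupport_iff_eventuallyEq.1 hx)
  have hi := fun i => int_fderiv (hgc i) (hc.of_isClosed_subset (isClosed_tsupport _) (hsub i)) (n i)
  have hu2 : Integrable fun x => u x ^ 2 := (hu.continuous.fun_pow 2).integrable_of_hasCompactSupport
    (hc.mono fun x hx h => hx (by simp [h]))
  have hD : Integrable fun x => ‖fderiv ℝ u x‖ ^ 2 :=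
    ((hu.continuous_fderiv one_ne_zero).norm.fun_pow 2).integrable_of_hasCompactSupport
      ((hc.fderiv ℝ).mono fun x hx h => hx (by simp [h]))
  have key : ∀ x, fderiv ℝ (g 0) x (n 0) + fderiv ℝ (g 1) x (n 1) + fderiv ℝ (g 2) x (n 2) +
      4 * κ * u x ^ 2 ≤ ‖fderiv ℝ u x‖ ^ 2 := by
    intro x
    by_cases hx : x ∈ tsupport u
    · have hd : ∀ i, fderiv ℝ (g i) x (n i) = 2 * u x * fderiv ℝ u x (n i) *
          (cos (⟪n i, x⟫ + c i) / sin (⟪n i, x⟫ + c i)) -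
          u x ^ 2 * κ * (1 + (cos (⟪n i, x⟫ + c i) / sin (⟪n i, x⟫ + c i)) ^ 2) := by
        intro i
        rw [hg i, dg (hu.differentiable one_ne_zero x) (ht x hx i), h1]
      rw [hd, hd, hd]
      exact pt h1 h01 h02 h12 (cot_id (hs x) (ht x hx 0) (ht x hx 1) (ht x hx 2)) _ _
    · have : ∀ i, fderiv ℝ (g i) x = 0 := fun i =>
        fderiv_of_notMem_tsupport ℝ fun h => hx (hsub i h)
      simp [this, image_eq_zero_of_notMem_tsupport hx]
  have hA : Integrable fun x => fderiv ℝ (g 0) x (n 0) + fderiv ℝ (g 1) x (n 1) :=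
    (hi 0).1.add (hi 1).1
  have hB : Integrable fun x => fderiv ℝ (g 0) x (n 0) + fderiv ℝ (g 1) x (n 1) +
      fderiv ℝ (g 2) x (n 2) := hA.add (hi 2).1
  have hC : Integrable fun x => 4 * κ * u x ^ 2 := hu2.const_mul _
  have := integral_mono (f := fun x => fderiv ℝ (g 0) x (n 0) + fderiv ℝ (g 1) x (n 1) +
    fderiv ℝ (g 2) x (n 2) + 4 * κ * u x ^ 2) (hB.add hC) hD key
  rwa [integral_add hB hC, integral_add hA (hi 2).1, integral_add (hi 0).1 (hi 1).1, (hi 0).2,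
    (hi 1).2, (hi 2).2, integral_const_mul, add_zero, add_zero, zero_add] at this

lemma int_region {F : ℝ × ℝ → ℝ} (hF : Continuous F) {f g : ℝ → ℝ} (hf : Continuous f)
    (hg : Continuous g) {a b : ℝ} (hab : a ≤ b) (hfg : ∀ y ∈ Ioo a b, f y ≤ g y)
    (hb : Bornology.IsBounded (regionBetween f g (Ioo a b))) :
    ∫ p in regionBetween f g (Ioo a b), F p = ∫ y in a..b, ∫ x in f y..g y, F (y, x) := by
  have hm := measurableSet_regionBetween hf.measurable hg.measurable (measurableSet_Ioo (a := a)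
    (b := b))
  have hi : IntegrableOn F (regionBetween f g (Ioo a b)) :=
    (hF.continuousOn.integrableOn_compact hb.isCompact_closure).mono_set subset_closure
  rw [← integral_indicator hm, Measure.volume_eq_prod, integral_prod _
    ((integrable_indicator_iff hm).2 hi), intervalIntegral.integral_of_le hab,
    integral_Ioc_eq_integral_Ioo, ← integral_indicator measurableSet_Ioo]
  refine integral_congr_ae (.of_forall fun y => ?_)
  by_cases hy : y ∈ Ioo a b
  · rw [indicator_of_mem hy, intervalIntegral.integral_of_le (hfg y hy),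
      integral_Ioc_eq_integral_Ioo, ← integral_indicator measurableSet_Ioo]
    refine integral_congr_ae (.of_forall fun x => ?_)
    simp only [indicator, regionBetween, mem_ofPred_eq, hy, true_and]
  · rw [indicator_of_notMem hy]
    simp only [indicator, regionBetween, mem_ofPred_eq, hy, false_and, if_false, integral_zero]

end Pool.Agent.H.MP_791656_an
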