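import Pool.Agent.H.MP_791656_an.A

open Filter Topology MeasureTheory Set Real
open scoped RealInnerProductSpace

namespace Pool.Agent.H.MP_791656_an

/-- an equilateral triangle of height 12 with the top vertex cut off at height 11 -/
def Ω : Set E := {p | p 0 ∈ Ioo (0 : ℝ) 11 ∧ p 1 ∈ Ioo (-((12 - p 0) / √3)) ((12 - p 0) / √3)}

lemma s3 : (1 : ℝ) < √3 := by rw [lt_sqrt zero_le_one]; norm_num

lemma mem {p : E} : p ∈ Ω ↔ 0 < p 0 ∧ 0 < 11 - p 0 ∧ 0 < 12 - p 0 + √3 * p 1 ∧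
    0 < 12 - p 0 - √3 * p 1 := by
  have : (0 : ℝ) < √3 := by linarith [s3]
  simp only [Ω, mem_ofPred_eq, mem_Ioo, neg_lt (b := p 1), lt_div_iff₀ this]
  exact ⟨fun ⟨⟨a, b⟩, c, d⟩ => ⟨a, by linarith, by linarith, by linarith⟩,
    fun ⟨a, b, c, d⟩ => ⟨⟨a, by linarith⟩, by linarith, by linarith⟩⟩

lemma op : IsOpen Ω := by
  refine IsOpen.inter (isOpen_Ioo.preimage (f := fun p : E => p 0) (by fun_prop)) (IsOpen.inter
    (isOpen_lt (f := fun p : E => -((12 - p 0) / √3)) (g := fun p => p 1) ?_ ?_)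
    (isOpen_lt (g := fun p : E => (12 - p 0) / √3) (f := fun p => p 1) ?_ ?_)) <;> fun_prop

lemma cvx : Convex ℝ Ω := by
  intro x hx y hy a b ha hb hab
  have H : ∀ {x y : ℝ}, 0 < x → 0 < y → 0 < a * x + b * y := fun hx hy =>
    convex_Ioi (𝕜 := ℝ) (0 : ℝ) hx hy ha hb hab
  rw [mem] at *
  obtain ⟨x1, x2, x3, x4⟩ := hx
  obtain ⟨y1, y2, y3, y4⟩ := hy
  obtain rfl : b = 1 - a := by linarith
  simp only [PiLp.add_apply, PiLp.smul_apply, smul_eq_mul]
  exact ⟨H x1 y1, by linarith [H x2 y2], by linarith [H x3 y3], by linarith [H x4 y4]⟩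

lemma bdd : Bornology.IsBounded Ω := by
  refine (Metric.isBounded_closedBall (x := 0) (r := 24)).subset fun p hp => ?_
  obtain ⟨x1, x2, x3, x4⟩ := mem.1 hp
  rw [mem_closedBall_zero_iff, EuclideanSpace.norm_eq, Fin.sum_univ_two, sqrt_le_iff]
  simp only [norm_eq_abs, sq_abs]
  have h : (√3 * p 1) ^ 2 = 3 * p 1 ^ 2 := by rw [mul_pow, sq_sqrt (by norm_num)]
  exact ⟨by norm_num, by nlinarith⟩

lemma integ {F : ℝ × ℝ → ℝ} (hF : Continuous F) : ∫ p in Ω, F (p 0, p 1) =
    ∫ y in (0 : ℝ)..11, ∫ x in -((12 - y) / √3)..(12 - y) / √3, F (y, x) := by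
  have h3 := s3
  rw [← int_region hF (by fun_prop) (by fun_prop) (by norm_num) (fun y hy => by
    have : 0 ≤ (12 - y) / √3 := div_nonneg (by linarith [hy.2]) (by positivity)
    linarith)]
  · exact ((volume_preserving_finTwoArrow ℝ).comp (PiLp.volume_preserving_ofLp (Fin 2))
      ).setIntegral_preimage_emb (MeasurableEquiv.finTwoArrow.measurableEmbedding.comp
      (MeasurableEquiv.toLp 2 _).symm.measurableEmbedding) F (regionBetween
      (fun y => -((12 - y) / √3)) (fun y => (12 - y) / √3) (Ioo 0 11))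
  · refine ((Metric.isBounded_Icc (0 : ℝ) 11).prod (Metric.isBounded_Icc (-12 : ℝ) 12)).subset ?_
    rintro ⟨y, x⟩ ⟨hy, hx⟩
    have : (12 - y) / √3 ≤ 12 := (div_le_self (by linarith [hy.2]) h3.le).trans (by linarith [hy.1])
    exact ⟨Ioo_subset_Icc_self hy, by linarith [hx.1], by linarith [hx.2]⟩

lemma area : (volume Ω).toReal = 143 / √3 := by
  have := integ (F := fun _ => 1) continuous_const
  simp only [integral_const, MeasurableSet.univ, measureReal_restrict_apply, univ_inter,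
    smul_eq_mul, mul_one, intervalIntegral.integral_const] at this
  rw [← Measure.real, this, intervalIntegral.integral_eq_sub_of_hasDerivAt
    (f := fun y => -(12 - y) ^ 2 / √3) (fun y _ => ?_) (Continuous.intervalIntegrable
      (by fun_prop) _ _)]
  · ring
  · convert! ((((hasDerivAt_id y).const_sub 12).pow 2).neg.div_const √3) using 1
    simp; ring

lemma inert : ∫ p in Ω, ((p 0 - 4) ^ 2 + p 1 ^ 2) = 20251 / 9 / √3 := by
  have h3 := s3
  rw [integ (F := fun q => (q.1 - 4) ^ 2 + q.2 ^ 2) (by fun_prop)]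
  have e : ∀ y w : ℝ, ∫ x in -w..w, ((y - 4) ^ 2 + x ^ 2) = 2 * w * (y - 4) ^ 2 + 2 * w ^ 3 / 3 := by
    intro y w
    rw [intervalIntegral.integral_add (by simp) (by simp)]
    simp; ring
  simp only [e]
  rw [intervalIntegral.integral_eq_sub_of_hasDerivAt (f := fun y => (-2 * (32 * (12 - y) ^ 2 -
    16 / 3 * (12 - y) ^ 3 + (12 - y) ^ 4 / 4) - (12 - y) ^ 4 / 18) / √3) (fun y _ => ?_)
    (Continuous.intervalIntegrable (by fun_prop) _ _)]
  · ring
  · have h := (hasDerivAt_id y).const_sub 12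
    convert! (((((((h.pow 2).const_mul 32).sub ((h.pow 3).const_mul (16 / 3))).add
      ((h.pow 4).div_const 4)).const_mul (-2)).sub ((h.pow 4).div_const 18)).div_const √3) using 1
    have h4 : √3 ^ 3 = 3 * √3 := by rw [pow_succ, sq_sqrt (by norm_num)]
    simp only [div_pow, h4, id]
    field_simp
    ring

lemma steiner {S : Set E} (hb : Bornology.IsBounded S) {c : E}
    (hA : (volume S).toReal ≠ 0) (hc : c = (volume S).toReal⁻¹ • ∫ x in S, x) (d : E) :
    ∫ x in S, ‖x - c‖ ^ 2 ≤ ∫ x in S, ‖x - d‖ ^ 2 := by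
  have hi : ∀ {G : Type} [NormedAddCommGroup G] {F : E → G}, Continuous F → IntegrableOn F S :=
    fun hF => (hF.continuousOn.integrableOn_compact hb.isCompact_closure).mono_set subset_closure
  have h0 : ∫ x in S, ⟪c - d, x - c⟫ = 0 := by
    rw [integral_inner (hi (by fun_prop)), integral_sub (hi (by fun_prop)) (hi (by fun_prop))]
    simp [hc, Measure.real, smul_smul, hA]
  rw [← add_zero (∫ x in S, ‖x - c‖ ^ 2), ← mul_zero 2, ← h0, ← integral_const_mul,
    ← integral_add (hi (by fun_prop)) (hi (by fun_prop))]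
  refine integral_mono (hi (by fun_prop)) (hi (by fun_prop)) fun x => ?_
  simp only
  rw [show x - d = (c - d) + (x - c) by abel, norm_add_sq_real]
  nlinarith [sq_nonneg ‖c - d‖]

lemma eig {u : E → ℝ} (hu : ContDiff ℝ 1 u) (hc : HasCompactSupport u) (ht : tsupport u ⊆ Ω) :
    π ^ 2 / 36 * ∫ x, u x ^ 2 ≤ ∫ x, ‖fderiv ℝ u x‖ ^ 2 := by
  have h4 : √3 * √3 = 3 := mul_self_sqrt (by norm_num)
  have := barta (n := ![!₂[π / 12, 0], !₂[-π / 24, √3 * π / 24], !₂[-π / 24, -(√3 * π / 24)]])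
    (c := ![0, π / 2, π / 2]) (κ := π ^ 2 / 144) (fun i => ?_) ?_ ?_ ?_ (fun x => ?_) hu hc
    fun x hx i => ?_
  · linarith
  · fin_cases i <;> simp [PiLp.inner_apply, -inner_self_eq_norm_sq_to_K]
    · ring
    all_goals linear_combination (π ^ 2 / 576) * h4
  · simp [PiLp.inner_apply]; ring
  · simp [PiLp.inner_apply]; ring
  · simp [PiLp.inner_apply]; linear_combination -(π ^ 2 / 576) * h4
  · simp [PiLp.inner_apply]; ring
  · obtain ⟨x1, x2, x3, x4⟩ := mem.1 (ht hx)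
    have := pi_pos
    refine (sin_pos_of_pos_of_lt_pi ?_ ?_).ne' <;> fin_cases i <;> simp [PiLp.inner_apply] <;>
      nlinarith

end Pool.Agent.H.MP_791656_an
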